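import Pool.Agent.TH571.PCV.Thrice

set_option autoImplicit false

open Polynomial Pool.Agent.W432.PC Pool.Agent.TH571.PCV

/-!
# Grothendieck's conjecture for systems with few nontrivial exponents outside two points

Let `∇ = d/dx - ∑ j, A j / (x - α j)` be a Fuchsian system of any rank `r`, with any number of
singular points and of accessory parameters.

Proof.  Let the `p`-curvature vanish at closed points of arbitrarily large residue characteristic `p`
in the class of `v` modulo `N`, and let `a v = -1` modulo `N`.  The start theorem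
`Pool.Agent.W432.PC.main` gives inequalities between the ordered weights, the fractional parts of the
multiples by `a` of the exponents.  They say (file `Weyl`) that for all integers `x i` with sum `1`
`∑ i, ∑ l, (a (e i l) - x i) % N ≥ r (N - 1)`, where `e i l` are the numerators of the exponents at the
singular points (infinity included), and the same holds for the dual system, with the opposite
exponents.  If, outside the two points `i₁`, `i₂`, only `m` exponents are not congruent to `g i`, the
choice of the shifts `a g i N` at these points gives a function `F` of one variable `x` with values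
in `[0, m]` whose steps are the exponents at the points `i₁`, `i₂` (file `Block`).  So its variance is
at most `m ^ 2 / 4`.  On the other hand the average of the variance over all units `a` is computed
exactly (files `Avg`, `Units`, `UnitsSum`, `UnitsAvg`): it is `form / 12`.
-/

namespace Pool.Agent.Results.MP_5e5ff1_ag.FewNontrivialExponents

/-- Systems of any rank `r` on the projective line, with any number of singular points and of accessory
parameters. For `n = 2`, `α = (0, 1)` these are the systems of the problem, with `b = A 0`, `c = A 1`.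

Let `∇ = d/dx - ∑ j, A j / (x - α j)` be a system of rank `r` with `n` finite poles over a domain `R` of
finite type over `ℤ`, of characteristic zero, with `α i - α j` invertible for `i ≠ j`.  Let its exponents
be rational: `lam j.castSucc l` at `α j` (the eigenvalues of `A j`) and `lam (Fin.last n) l` at infinity
(the eigenvalues of `-∑ j, A j`).  Let `i₁`, `i₂` be two of the `n + 1` singular points, and let `m` be at
least the number of the exponents at the other points `i` which are not congruent to `g i` modulo `ℤ`
(counted together for all the other points).  Let `G` be the sum of the `g i` and let `Q` be the value of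
the form `form` at the exponents `x l` at the point `i₁` and `y l` at `i₂`, shifted by `G`:
`Q = ∑ gam (x l - x l') + ∑ gam (y l - y l') - 2 ∑ gam (x l + y l' + G)`, where `gam q` is the product
of the numbers `-p` for the prime divisors `p` of the denominator `n` of `q`, divided by `n ^ 2`
(so it is `1` for `q` in `ℤ`).
Then for every common denominator `N` the number of the classes modulo `N` of primes for which the
`p`-curvature is nonzero at all closed points of residue characteristic `p` (`p` large) is at least
`φ(N) (Q - 3 m ^ 2) / (3 (r ^ 2 - m ^ 2))`.  In particular, if `Q > 3 m ^ 2`, the `p`-curvatures do not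
vanish on a dense open subset of `Spec R`.

Example (`form_prime`): if `N` is a prime number, the `x l` are distinct modulo `ℤ`, and so are the
`y l`, and no `x l + y l' + G` is an integer, then `Q = 2 r (1 + 1 / N)`, and `2 r ≥ 3 m ^ 2 > 0` is
enough. -/
theorem result {R : Type*} [CommRing R] [IsDomain R] [CharZero R] [Algebra.FiniteType ℤ R]
    {n r : ℕ} (α : Fin n → R) (hα : ∀ i j, i ≠ j → IsUnit (α i - α j))
    (A : Fin n → Matrix (Fin r) (Fin r) R) (lam : Fin (n + 1) → Fin r → ℚ)
    (hlam : ∀ j : Fin n, HasExponents (A j) (lam j.castSucc))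
    (hinf : HasExponents (∑ j, A j) (fun l => -lam (Fin.last n) l))
    (i₁ i₂ : Fin (n + 1)) (h12 : i₁ ≠ i₂) (g : Fin (n + 1) → ℚ) (m : ℕ)
    (hm : ∑ i ∈ (Finset.univ.erase i₁).erase i₂,
      (Finset.univ.filter fun l => (lam i l - g i).den ≠ 1).card ≤ m) :
    (∀ N : ℕ, 0 < N → (∀ i l, ∃ z : ℤ, (N : ℚ) * lam i l = z) →
      (∀ i ∈ (Finset.univ.erase i₁).erase i₂, ∃ z : ℤ, (N : ℚ) * g i = z) →
      ∃ S : Finset (ZMod N)ˣ, (N.totient : ℚ) * (form (lam i₁)
        (fun l => lam i₂ l + ∑ i ∈ (Finset.univ.erase i₁).erase i₂, g i) - 3 * (m : ℚ) ^ 2) ≤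
          3 * ((r : ℚ) ^ 2 - (m : ℚ) ^ 2) * S.card ∧
        ∃ P₀ : ℕ, ∀ p : ℕ, p.Prime → P₀ < p → ∀ v ∈ S, (p : ZMod N) = (v : ZMod N) →
          ∀ (𝔪 : Ideal R) [𝔪.IsMaximal], (p : R) ∈ 𝔪 → ¬ PCurvZeroAt α A 𝔪) ∧
    (3 * (m : ℚ) ^ 2 < form (lam i₁)
        (fun l => lam i₂ l + ∑ i ∈ (Finset.univ.erase i₁).erase i₂, g i) →
      ¬ CondII α A) := by
  refine ⟨fun N hN hNlam hNg =>
    few α hα A lam hlam hinf i₁ i₂ h12 g m hm N hN hNlam hNg, fun hQ => ?_⟩
  obtain ⟨N, hN, hNlam, hNg⟩ : ∃ N : ℕ, 0 < N ∧ (∀ i l, ∃ z : ℤ, (N : ℚ) * lam i l = z) ∧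
      ∀ i, ∃ z : ℤ, (N : ℚ) * g i = z := by
    refine ⟨(∏ i, ∏ l, (lam i l).den) * ∏ i, (g i).den, ?_, ?_, ?_⟩
    · refine Nat.mul_pos (Finset.prod_pos fun i _ => Finset.prod_pos fun l _ => ?_)
        (Finset.prod_pos fun i _ => ?_)
      · exact (lam i l).den_pos
      · exact (g i).den_pos
    · intro i l
      have h1 : (lam i l).den ∣ (∏ i, ∏ l, (lam i l).den) * ∏ i, (g i).den :=
        Dvd.dvd.mul_right
          ((Finset.dvd_prod_of_mem (fun l => (lam i l).den) (Finset.mem_univ l)).trans
          (Finset.dvd_prod_of_mem (fun i => ∏ l, (lam i l).den) (Finset.mem_univ i))) _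
      obtain ⟨k, hk⟩ := h1
      refine ⟨k * (lam i l).num, ?_⟩
      rw [hk]
      push_cast
      have := Rat.den_mul_eq_num (lam i l)
      rw [mul_comm ((lam i l).den : ℚ) k, mul_assoc, this]
    · intro i
      have h1 : (g i).den ∣ (∏ i, ∏ l, (lam i l).den) * ∏ i, (g i).den :=
        Dvd.dvd.mul_left (Finset.dvd_prod_of_mem (fun i => (g i).den) (Finset.mem_univ i)) _
      obtain ⟨k, hk⟩ := h1
      refine ⟨k * (g i).num, ?_⟩
      rw [hk]
      push_cast
      have := Rat.den_mul_eq_num (g i)
      rw [mul_comm ((g i).den : ℚ) k, mul_assoc, this]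
  obtain ⟨S, hS, P₀, hP⟩ := few α hα A lam hlam hinf i₁ i₂ h12 g m hm N hN hNlam (fun i _ => hNg i)
  have hne : S.Nonempty := by
    rw [Finset.nonempty_iff_ne_empty]
    rintro rfl
    rw [Finset.card_empty, Nat.cast_zero, mul_zero] at hS
    have h3 : (0 : ℚ) < N.totient := by exact_mod_cast Nat.totient_pos.2 hN
    have h4 := mul_pos h3 (sub_pos.2 hQ)
    linarith
  obtain ⟨v, hv⟩ := hne
  exact not_condII_of_class _ _ N hN v P₀ (fun p hp hpP hpv => hP p hp hpP v hv hpv)

end Pool.Agent.Results.MP_5e5ff1_ag.FewNontrivialExponents
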