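import Pool.Agent.TH295.PC.Affine4A

set_option autoImplicit false

open Polynomial Pool.Agent.W432.PC

namespace Pool.Agent.Results.MP_5e5ff1_ag.RankFourRoughDenominators

/-- The denominator of the rational number `x` is at least `M` or has no prime factor
below `59` (for example `x` is an integer). -/
def Adm (M : ℕ) (x : ℚ) : Prop := M ≤ x.den ∨ ∀ p : ℕ, p.Prime → p ∣ x.den → 59 ≤ p

lemma den_eq {D : ℕ} (hD : 0 < D) (z : ℤ) : ((z : ℚ) / (D : ℚ)).den = D / Int.gcd z D := by
  have h1 : ((z : ℚ) / (D : ℚ)) = Rat.divInt z (D : ℤ) := by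
    rw [Rat.divInt_eq_div]; push_cast; rfl
  rw [h1, Rat.den_divInt, if_neg (by exact_mod_cast hD.ne')]
  simp [Int.gcd, Nat.gcd_comm]

lemma adm {D M : ℕ} (hD : 0 < D) {x : ℚ} {z : ℤ} (hx : x = (z : ℚ) / D) (h : Adm M x) :
    Pool.Agent.TH295.PC.Adm 59 M (D / Int.gcd z D) := by
  unfold Adm at h
  rw [hx, den_eq hD] at h
  exact h

/-- Rank four systems on the thrice punctured line with one accessory parameter (spectral type
`1111, 1111, 22`) and rational exponents of arbitrary denominators.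

Let `∇ = d/dt - (b / t + c / (t - 1))` be a system of rank four over a domain `R` of finite type
over `ℤ`, of characteristic zero. Let its exponents be `e 0 l / N` at `0`, `e 1 l / N` at `1` and
`e 2 l / N` at infinity (the eigenvalues of `b`, of `c` and of `-(b + c)`). At one of the three
points, `j`, let the exponents be congruent in pairs: `e j 0 ≡ e j 1`, `e j 2 ≡ e j 3` modulo `N`.
Call admissible the sums of three exponents, one at each point, and the sums of two such triples
which are different at every point and whose `j`-th indices belong to the two different pairs.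
Assume that no admissible sum is an integer, that the admissible sums have denominators (in lowest
terms) at least `400000` or without prime factors below `59`, and that the differences of the
exponents at one point have denominators at least `3000` or without prime factors below `59`.
The accessory parameter is arbitrary.
Then there is a residue class modulo `N` such that for all large primes `p` in the class the
`p`-curvature of `∇` is nonzero at every closed point of `Spec R` of residue characteristic `p`.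
In particular the `p`-curvatures do not vanish on a dense open subset of `Spec R`. -/
theorem result {R : Type*} [CommRing R] [IsDomain R] [CharZero R] [Algebra.FiniteType ℤ R]
    (b c : Matrix (Fin 4) (Fin 4) R) (N : ℕ) (hN : 1 < N) (e : Fin 3 → Fin 4 → ℤ)
    (he0 : HasExponents b (fun l => (e 0 l : ℚ) / N))
    (he1 : HasExponents c (fun l => (e 1 l : ℚ) / N))
    (he2 : HasExponents (b + c) (fun l => -(e 2 l : ℚ) / N))
    (j : Fin 3) (hj0 : (N : ℤ) ∣ e j 0 - e j 1) (hj1 : (N : ℤ) ∣ e j 2 - e j 3)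
    (h1 : ∀ i l l', Adm 3000 (((e i l : ℚ) - e i l') / N))
    (h2 : ∀ κ : Fin 3 → Fin 4, ¬ (N : ℤ) ∣ ∑ i, e i (κ i) ∧
      Adm 400000 ((∑ i, (e i (κ i) : ℚ)) / N))
    (h3 : ∀ κ κ' : Fin 3 → Fin 4, (∀ i, κ i ≠ κ' i) → κ j < 2 → 2 ≤ κ' j →
      ¬ (N : ℤ) ∣ ∑ i, e i (κ i) + ∑ i, e i (κ' i) ∧
      Adm 400000 ((∑ i, (e i (κ i) : ℚ) + ∑ i, (e i (κ' i) : ℚ)) / N)) :
    (∃ a : ℤ, IsCoprime a (N : ℤ) ∧ ∃ P₀ : ℕ, ∀ p : ℕ, p.Prime → P₀ < p → (N : ℤ) ∣ a * p + 1 →
      ∀ (𝔪 : Ideal R) [𝔪.IsMaximal], (p : R) ∈ 𝔪 → ¬ PCurvZeroAt ![0, 1] ![b, c] 𝔪) ∧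
    ¬ CondII (![0, 1] : Fin 2 → R) ![b, c] := by
  have hN0 : 0 < N := by omega
  have hα : ∀ i j : Fin 2, i ≠ j → IsUnit ((![0, 1] : Fin 2 → R) i - ![0, 1] j) := by
    intro i j hij
    fin_cases i <;> fin_cases j
    · exact absurd rfl hij
    · simp
    · simp
    · exact absurd rfl hij
  obtain ⟨a, ha, P₀, hP⟩ := Pool.Agent.TH295.PC.affine4A ![0, 1] hα ![b, c] N hN e he0 he1 he2 j
    hj0 hj1 (fun i l l' => adm hN0 (by push_cast; rfl) (h1 i l l'))
    (fun κ => ⟨(h2 κ).1, adm hN0 (by push_cast; rfl) (h2 κ).2⟩)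
    (fun κ κ' k1 k2 k3 => ⟨(h3 κ κ' k1 k2 k3).1, adm hN0 (by push_cast; rfl) (h3 κ κ' k1 k2 k3).2⟩)
  exact ⟨⟨a, ha, P₀, hP⟩, not_condII_of _ _ N (by omega) a ha
    ⟨1, one_ne_zero, P₀, fun p hp hpP hap 𝔪 _ hpm _ => hP p hp hpP hap 𝔪 hpm⟩⟩

end Pool.Agent.Results.MP_5e5ff1_ag.RankFourRoughDenominators
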