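import Pool.Agent.TH190.E8.Affine6

set_option autoImplicit false

open Polynomial Pool.Agent.W432.PC

/-!
# Grothendieck's conjecture for systems of rank six with one accessory parameter (type E8)

The Fuchsian systems with index of rigidity zero whose spectral type is in the fundamental region
correspond to the affine Dynkin diagrams which are stars: `11, 11, 11, 11` (D4), `111, 111, 111` (E6),
`1111, 1111, 22` (E7) and `111111, 222, 33` (E8).  They have one accessory parameter and their
monodromy groups are not rigid.  For exponents of prime denominator the first three cases are treated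
in the files `AffinePrimeDenominators` and `RankFourPrimeDenominators`; here is the last one.

Proof.  Let the `p`-curvature vanish at some closed points of large residue characteristic `p` in
every class of residues prime to `N`.  If `a p = -1` modulo `N`, the horizontal sections form a
bundle with a parabolic structure, with weights the representatives of the multiples by `a` of the
exponents, without subbundles of rank one or two of positive degree.  A count of dimensions turns
this into linear inequalities for the weights, for `a` and `-a` (parts PC and PE of helper280).  They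
cut out a polytope with 30 facets.  Let `Q(z) = z (z - N)` for the representative `z` of a residue
modulo `N`.  The 120 positive roots of E8 give residues modulo `N`: 15, 3 and 1 differences of
exponents at the three points, 36 sums of one, 45 sums of two and 20 sums of three exponents at every
point.  On the polytope the function
`4 (sum of the 15 Q) + 9 (sum of the 3 Q) + 14 Q - (sum of the 101 other Q)` is negative.  Its quadratic
part cancels, and it equals `N` times (the sum of the absolute values of 19 roots, which form a
subsystem A5 + A2 + A1, minus `5 N`), up to correction terms for six further roots; this is bounded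
with the minimum of six or five numbers.  Summing over all units `a` modulo `N` gives a
contradiction, since `4 * 15 + 9 * 3 + 14 = 101` and the sum of `Q(a z)` over the units `a` does not
depend on `z` prime to `N`.
-/

namespace Pool.Agent.Results.MP_5e5ff1_ag.RankSixPrimeDenominators

/-- `κ` and `κ'` choose an exponent at each of the three singular points. The choices differ at the
point `p 0`, lie in different pairs `{0, 1}`, `{2, 3}`, `{4, 5}` at the point `p 1`, and in different
halves `{0, 1, 2}`, `{3, 4, 5}` at the point `p 2`. -/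
def Two (p : Equiv.Perm (Fin 3)) (κ κ' : Fin 3 → Fin 6) : Prop :=
  κ (p 0) ≠ κ' (p 0) ∧ (κ (p 1) : ℕ) / 2 ≠ (κ' (p 1) : ℕ) / 2 ∧
    (κ (p 2) : ℕ) / 3 ≠ (κ' (p 2) : ℕ) / 3

/-- `κ`, `κ'`, `κ''` choose an exponent at each of the three singular points. The three choices are
different at the point `p 0`, lie in different pairs `{0, 1}`, `{2, 3}`, `{4, 5}` at the point `p 1`,
and not all in the same half `{0, 1, 2}` or `{3, 4, 5}` at the point `p 2`. -/
def Three (p : Equiv.Perm (Fin 3)) (κ κ' κ'' : Fin 3 → Fin 6) : Prop :=
  (κ (p 0) ≠ κ' (p 0) ∧ κ (p 0) ≠ κ'' (p 0) ∧ κ' (p 0) ≠ κ'' (p 0)) ∧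
    ((κ (p 1) : ℕ) / 2 ≠ (κ' (p 1) : ℕ) / 2 ∧ (κ (p 1) : ℕ) / 2 ≠ (κ'' (p 1) : ℕ) / 2 ∧
      (κ' (p 1) : ℕ) / 2 ≠ (κ'' (p 1) : ℕ) / 2) ∧
    ¬ ((κ (p 2) : ℕ) / 3 = (κ' (p 2) : ℕ) / 3 ∧ (κ (p 2) : ℕ) / 3 = (κ'' (p 2) : ℕ) / 3)

/-- Rank six systems on the line with three punctures and one accessory parameter (spectral type
`111111, 222, 33`) and exponents of prime denominator.

Let `∇ = d/dx - (A 0 / (x - α 0) + A 1 / (x - α 1))` be a system of rank six over a domain `R` of
finite type over `ℤ`, of characteristic zero, with `α 0 - α 1` invertible. Let its exponents be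
`e 0 l / N` at `α 0`, `e 1 l / N` at `α 1` and `e 2 l / N` at infinity (the eigenvalues of `A 0`, of
`A 1` and of `-(A 0 + A 1)`). At one of the three points, `p 1`, let the exponents be congruent modulo
`N` in pairs, at another one, `p 2`, in triples. Assume that the differences of the exponents at each
point are prime to `N` or divisible by `N`, that all sums of three exponents, one at each point, are
prime to `N` (after multiplication by `N`), and that so are all sums of two such triples which are
`Two` and of three such triples which are `Three`. (If `N` is a prime number: no such sum is an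
integer.) The accessory parameter is arbitrary.
Then there is a residue class modulo `N` such that for all large primes `q` in the class the
`p`-curvature of `∇` is nonzero at every closed point of `Spec R` of residue characteristic `q`.
In particular condition (ii) fails. -/
theorem result {R : Type*} [CommRing R] [IsDomain R] [CharZero R] [Algebra.FiniteType ℤ R]
    (α : Fin 2 → R) (hα : ∀ i j, i ≠ j → IsUnit (α i - α j))
    (A : Fin 2 → Matrix (Fin 6) (Fin 6) R) (N : ℕ) (hN : 1 < N) (e : Fin 3 → Fin 6 → ℤ)
    (he0 : HasExponents (A 0) (fun l => (e 0 l : ℚ) / N))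
    (he1 : HasExponents (A 1) (fun l => (e 1 l : ℚ) / N))
    (he2 : HasExponents (A 0 + A 1) (fun l => -(e 2 l : ℚ) / N))
    (p : Equiv.Perm (Fin 3))
    (hp1 : ∀ l l' : Fin 6, (l : ℕ) / 2 = (l' : ℕ) / 2 → (N : ℤ) ∣ e (p 1) l - e (p 1) l')
    (hp2 : ∀ l l' : Fin 6, (l : ℕ) / 3 = (l' : ℕ) / 3 → (N : ℤ) ∣ e (p 2) l - e (p 2) l')
    (h1 : ∀ i l l', IsCoprime (e i l - e i l') (N : ℤ) ∨ (N : ℤ) ∣ e i l - e i l')
    (h2 : ∀ κ : Fin 3 → Fin 6, IsCoprime (∑ i, e i (κ i)) (N : ℤ))
    (h3 : ∀ κ κ' : Fin 3 → Fin 6, Two p κ κ' →
      IsCoprime (∑ i, e i (κ i) + ∑ i, e i (κ' i)) (N : ℤ))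
    (h4 : ∀ κ κ' κ'' : Fin 3 → Fin 6, Three p κ κ' κ'' →
      IsCoprime (∑ i, e i (κ i) + ∑ i, e i (κ' i) + ∑ i, e i (κ'' i)) (N : ℤ)) :
    (∃ a : ℤ, IsCoprime a (N : ℤ) ∧ ∃ P₀ : ℕ, ∀ q : ℕ, q.Prime → P₀ < q → (N : ℤ) ∣ a * q + 1 →
      ∀ (𝔪 : Ideal R) [𝔪.IsMaximal], (q : R) ∈ 𝔪 → ¬ PCurvZeroAt α A 𝔪) ∧
    ¬ CondII α A := by
  obtain ⟨a, ha, P₀, hP⟩ := Pool.Agent.TH190.E8.affine6 α hα A N hN e he0 he1 he2 p hp1 hp2 h1 h2
    h3 h4
  exact ⟨⟨a, ha, P₀, hP⟩, not_condII_of _ _ N (by omega) a ha
    ⟨1, one_ne_zero, P₀, fun p hp hpP hap 𝔪 _ hpm _ => hP p hp hpP hap 𝔪 hpm⟩⟩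

end Pool.Agent.Results.MP_5e5ff1_ag.RankSixPrimeDenominators
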