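import Pool.Agent.TH571.GP.Thrice

set_option autoImplicit false

open Polynomial Pool.Agent.W432.PC Pool.Agent.W432.TC Pool.Agent.TH571.GP

/-!
# The `p`-curvature conjecture for generic systems of every spectral type

The starting result `TorsionCosets` (`MP_ba03d2_ag`) says that the exponents of the systems of rank
`r` with vanishing `p`-curvatures lie on finitely many proper torsion cosets of the torus of all
exponents.  It says nothing on systems of a given spectral type (with prescribed multiplicities of
the exponents modulo `ℤ`, for example rigid systems), which form subtori of higher codimension.  Here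
every spectral type is treated, with a bound for the codimension.

Proof.  The real points of the torsion cosets of `TorsionCosets` satisfy the Weyl inequalities.  On
such a coset choose a maximal set `B₁` of independent classes of exponents outside of the exceptional
classes `big p`, `p ≠ p₀`, as pivots.  The remaining classes at the point `p` can all be given one
value `κ p`, where the sum of the `κ p` is any given number (the values of the exceptional classes
which are pivots determine `κ p` at their points, and `κ p₀` is free).  If this sum is a small positive
number, the Weyl inequality of the choice `κ` says that the classes in `B₁` have total multiplicity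
at least `r`.
-/

namespace Pool.Agent.Results.MP_5e5ff1_ag.SpectralTypes

universe u

/-- Systems of rank `r` on the thrice punctured line, of any spectral type and with any number of
accessory parameters.

Let the exponents at each of the points `0`, `1`, `∞` be divided into classes by labels `ty` (at the
point `p`, the exponents with the numbers `l`, `l'` are in the same class if `ty p l = ty p l'`).
Suppose that all classes have at most `m` elements, except possibly one class `big p` at each of the
two points `p ≠ p₀`.

Then there is a finite set `𝒟` of torsion cosets in the torus of exponents, each with `k ≥ r / m`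
relations `f j` which are independent as relations between the classes (the class sums
`csum ty (f j)` of their coefficients are linearly independent; the trace relation may be one of
them), so that it meets the torus of the exponents of this spectral type in codimension at least
`k - 1`, such that for every system `∇ = d/dt - (b / t + c / (t - 1))` over a domain `R` of
characteristic zero and of finite type over `ℤ` with rational exponents (the eigenvalues `lam 0 l` of
`b`, `lam 1 l` of `c`, `lam 2 l` of `-(b + c)`), congruent modulo `ℤ` if they are in the same class,
one of the following holds: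
* the exponents are on one of the cosets in `𝒟`;
* there is a residue class modulo the common denominator `N` of the exponents, prime to `N`, such
  that the `p`-curvature is nonzero at every closed point of `Spec R` whose residue characteristic is
  a large prime in that class; in particular the `p`-curvatures do not vanish on a dense open subset
  of `Spec R`. -/
theorem result (r : ℕ) (ty : Fin 3 → Fin r → Fin r) (p₀ : Fin 3) (big : Fin 3 → Fin r) (m : ℕ)
    (hm : ∀ p l, p = p₀ ∨ ty p l ≠ big p →
      (Finset.univ.filter fun l' => ty p l' = ty p l).card ≤ m) :
    ∃ 𝒟 : Finset (AddSubgroup (Fin 3 × Fin r → ℤ) × (Fin 3 × Fin r → ℚ)),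
      (∀ C ∈ 𝒟, ∃ (k : ℕ) (f : Fin k → Fin 3 × Fin r → ℤ), r ≤ k * m ∧
        LinearIndependent ℤ (fun j => csum ty (f j)) ∧ ∀ j, f j ∈ C.1) ∧
      ∀ (R : Type u) [CommRing R] [IsDomain R] [CharZero R] [Algebra.FiniteType ℤ R]
        (b c : Matrix (Fin r) (Fin r) R) (lam : Fin 3 → Fin r → ℚ) (N : ℕ),
        HasExponents b (lam 0) → HasExponents c (lam 1) →
        HasExponents (b + c) (fun l => -lam 2 l) →
        (∀ j l l', ty j l = ty j l' → ∃ z : ℤ, lam j l - lam j l' = z) →
        0 < N → (∀ j l, ∃ m : ℤ, (N : ℚ) * lam j l = m) →
        (∃ C ∈ 𝒟, InCoset C.1 C.2 (fun i => ((lam i.1 i.2 : ℚ) : ℝ))) ∨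
          ((∃ a : ℤ, IsCoprime a (N : ℤ) ∧ ∃ P₀ : ℕ, ∀ p : ℕ, p.Prime → P₀ < p →
            (N : ℤ) ∣ a * p + 1 → ∀ (𝔪 : Ideal R) [𝔪.IsMaximal], (p : R) ∈ 𝔪 →
              ¬ PCurvZeroAt ![0, 1] ![b, c] 𝔪) ∧ ¬ CondII (![0, 1] : Fin 2 → R) ![b, c]) := by
  obtain ⟨𝒟, h𝒟, h⟩ := spectral' 2 r ty p₀ big m hm
  refine ⟨𝒟, h𝒟, ?_⟩
  intro R _ _ _ _ b c lam N h0 h1 h2 hty hN hNlam
  have hα : ∀ i j : Fin 2, i ≠ j → IsUnit ((![0, 1] : Fin 2 → R) i - ![0, 1] j) := by
    intro i j hij
    fin_cases i <;> fin_cases j
    · exact absurd rfl hij
    · simp
    · simp
    · exact absurd rfl hij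
  refine h R ![0, 1] ![b, c] lam N hα ?_ ?_ hty hN hNlam
  · intro j
    fin_cases j
    · exact h0
    · exact h1
  · have : ∑ j, (![b, c] : Fin 2 → Matrix (Fin r) (Fin r) R) j = b + c := by simp
    rw [this]
    exact h2

end Pool.Agent.Results.MP_5e5ff1_ag.SpectralTypes
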